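import Pool.Agent.R634.SH.Red
import Pool.Agent.W668.Shai.Key2

/-!
# MP_df090f_an: `C(βΓ)` has the SHAI property for every discrete space `Γ`

For every discrete space `Γ` (uncountable or not) and for real or complex scalars, every surjective
algebra homomorphism from the bounded operators on `C(βΓ)` onto the bounded operators on a nonzero
Banach space is injective.  This answers the question (Q1) affirmatively.
-/

set_option autoImplicit false

open Set
open scoped BoundedContinuousFunction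

namespace Pool.Agent.Results.MP_df090f_an.ShaiBeta

universe u v w

/-- The SHAI property of a normed space `X`: for every nonzero Banach space `Y`, every surjective
algebra homomorphism `ψ : B(X) → B(Y)` (a linear multiplicative map; it is not assumed that `ψ` is
continuous or unital) is injective. -/
def SHAI (𝕜 : Type w) [RCLike 𝕜] (X : Type u) [NormedAddCommGroup X] [NormedSpace 𝕜 X] : Prop :=
  ∀ (Y : Type v) [NormedAddCommGroup Y] [NormedSpace 𝕜 Y] [CompleteSpace Y] [Nontrivial Y]
    (ψ : (X →L[𝕜] X) →ₙₐ[𝕜] (Y →L[𝕜] Y)), Function.Surjective ψ → Function.Injective ψ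

section

variable {𝕜 : Type w} [RCLike 𝕜] {Γ : Type u} [TopologicalSpace Γ] [DiscreteTopology Γ]

/-- the restriction `C(βΓ) → ℓ_∞(Γ)` -/
noncomputable def restr : C(StoneCech Γ, 𝕜) →ₗᵢ[𝕜] (Γ →ᵇ 𝕜) where
  toFun f := (BoundedContinuousFunction.mkOfCompact f).compContinuous
    ⟨stoneCechUnit, continuous_stoneCechUnit⟩
  map_add' _ _ := rfl
  map_smul' _ _ := rfl
  norm_map' f := by
    apply le_antisymm
    · refine (BoundedContinuousFunction.norm_le (norm_nonneg _)).2 fun γ => ?_
      exact f.norm_coe_le_norm (stoneCechUnit γ)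
    · refine (ContinuousMap.norm_le _ (norm_nonneg _)).2 fun x => ?_
      refine denseRange_stoneCechUnit.induction_on x ?_ ?_
      · exact isClosed_le (f.continuous.norm) continuous_const
      · intro γ
        exact ((BoundedContinuousFunction.mkOfCompact f).compContinuous
          ⟨stoneCechUnit, continuous_stoneCechUnit⟩ : Γ →ᵇ 𝕜).norm_coe_le_norm γ

theorem restr_surjective : Function.Surjective (restr (𝕜 := 𝕜) (Γ := Γ)) := by
  intro g
  have : CompactSpace (Metric.closedBall (0 : 𝕜) ‖g‖) :=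
    isCompact_iff_compactSpace.1 (isCompact_closedBall 0 ‖g‖)
  have hc : Continuous (fun γ : Γ => (⟨g γ, by
      rw [mem_closedBall_zero_iff]
      exact g.norm_coe_le_norm γ⟩ : Metric.closedBall (0 : 𝕜) ‖g‖)) :=
    continuous_of_discreteTopology
  refine ⟨⟨fun x => ((stoneCechExtend hc x : Metric.closedBall (0 : 𝕜) ‖g‖) : 𝕜),
    continuous_subtype_val.comp (continuous_stoneCechExtend hc)⟩, ?_⟩
  ext γ
  change ((stoneCechExtend hc (stoneCechUnit γ) : Metric.closedBall (0 : 𝕜) ‖g‖) : 𝕜) = g γ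
  rw [stoneCechExtend_stoneCechUnit]

end

/-- **Main theorem** (a positive answer to Q1).  For every discrete space `Γ`, in particular for
every uncountable one, the Banach space `C(βΓ)` of continuous real or complex functions on the
Stone-Čech compactification of `Γ` has the SHAI property. -/
theorem result (𝕜 : Type w) [RCLike 𝕜] (Γ : Type u) [TopologicalSpace Γ] [DiscreteTopology Γ] :
    SHAI.{max u w, v} 𝕜 C(StoneCech Γ, 𝕜) := by
  intro Y _ _ _ _ ψ hψ
  set E : C(StoneCech Γ, 𝕜) ≃ₗᵢ[𝕜] (Γ →ᵇ 𝕜) :=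
    LinearIsometryEquiv.ofSurjective restr restr_surjective
  set e : C(StoneCech Γ, 𝕜) ≃L[𝕜] (Γ →ᵇ 𝕜) := E.toContinuousLinearEquiv
  set A : ((Γ →ᵇ 𝕜) →L[𝕜] (Γ →ᵇ 𝕜)) ≃ₐ[𝕜]
      (C(StoneCech Γ, 𝕜) →L[𝕜] C(StoneCech Γ, 𝕜)) :=
    (e.symm.conjContinuousAlgEquiv).toAlgEquiv
  set φ : ((Γ →ᵇ 𝕜) →L[𝕜] (Γ →ᵇ 𝕜)) →ₐ[𝕜] (Y →L[𝕜] Y) :=
    (Pool.Agent.W668.Shai.toAlg ψ hψ).comp A.toAlgHom
  have hφ : ∀ T, φ T = ψ (A T) := fun T => rfl
  have hφs : Function.Surjective φ := by
    intro S
    obtain ⟨T, hT⟩ := hψ S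
    refine ⟨A.symm T, ?_⟩
    rw [hφ, A.apply_symm_apply, hT]
  have hφi : Function.Injective φ := Pool.Agent.R634.SH.shai_linf φ hφs
  intro T T' h
  have h1 : φ (A.symm T) = φ (A.symm T') := by
    rw [hφ, hφ, A.apply_symm_apply, A.apply_symm_apply, h]
  exact A.symm.injective (hφi h1)

end Pool.Agent.Results.MP_df090f_an.ShaiBeta
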